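import Pool.Agent.P.MP_7e1ced_an.Groth

set_option autoImplicit false

/-! Block systems and the ideals they define. -/

namespace Pool.Agent.P.MP_7e1ced_an

open Set Filter Topology

theorem IdealOn.solid (I : IdealOn) : Solid I.c0 := fun _ hx _ h ε hε =>
  I.subset _ (hx ε hε) _ fun n hn => le_trans hn (h n)

theorem IdealOn.isClosed (I : IdealOn) : IsClosed (I.c0 : Set E) := by
  refine isClosed_of_closure_subset fun x hx ε hε => ?_
  obtain ⟨y, hy, h⟩ := Metric.mem_closure_iff.1 hx (ε / 2) (half_pos hε)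
  refine I.subset _ (hy (ε / 2) (half_pos hε)) _ fun n hn => ?_
  have h1 := (BoundedContinuousFunction.dist_coe_le_dist (f := x) (g := y) n).trans_lt h
  have h2 := abs_sub_abs_le_abs_sub (x n) (y n)
  rw [Real.dist_eq] at h1
  change ε ≤ |x n| at hn
  change ε / 2 ≤ |y n|
  linarith

theorem IdealOn.ind_mem (I : IdealOn) {A : Set ℕ} (h : A ∈ I.sets) : ind A ∈ I.c0 :=
  fun ε hε => I.subset _ h _ fun n hn => by
    by_contra h'
    change ε ≤ |ind A n| at hn
    rw [ind_of_notMem h', abs_zero] at hn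
    linarith

theorem IdealOn.biUnion_mem (I : IdealOn) {ι : Type} (s : Finset ι) {A : ι → Set ℕ}
    (h : ∀ i, A i ∈ I.sets) : (⋃ i ∈ s, A i) ∈ I.sets := by
  classical
  induction s using Finset.induction_on with
  | empty => simpa using I.finite _ finite_empty
  | insert a s _ ih => rw [Finset.set_biUnion_insert]; exact I.union _ (h a) _ ih

theorem IdealOn.exists_conc (I : IdealOn) (μ : E →L[ℝ] ℝ) {η : ℝ} (hη : 0 < η) :
    ∃ C ∈ I.sets, sv I.c0 μ Cᶜ ≤ η := by
  obtain ⟨x, hx, h1, h2⟩ := exists_lt_sv (X := I.c0) (μ := μ) (A := univ)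
    (c := sv I.c0 μ univ - η / 2) (by linarith)
  have hK : 0 < ‖μ‖ + 1 := add_pos_of_nonneg_of_pos μ.opNorm_nonneg one_pos
  set γ := η / 2 / (‖μ‖ + 1) with hγ
  have hγp : 0 < γ := by positivity
  refine ⟨_, hx γ hγp, ?_⟩
  have a1 := abs_ind_mul_le_sv (μ := μ) I.solid hx {n | γ ≤ |x n|} one_pos
    (norm_le_of fun n => by simpa [ind_of_mem (mem_univ n)] using h1 n)
  have a2 : |μ (ind {n | γ ≤ |x n|}ᶜ * x)| ≤ (‖μ‖ + 1) * γ :=
    (μ.le_opNorm _).trans (mul_le_mul (by linarith) (norm_le_of fun p => by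
      by_cases hp : p ∈ {n | γ ≤ |x n|}ᶜ
      · rw [BoundedContinuousFunction.mul_apply, ind_of_mem hp, one_mul]
        exact (not_le.1 (show ¬ γ ≤ |x p| from hp)).le
      · rw [BoundedContinuousFunction.mul_apply, ind_of_notMem hp, zero_mul, abs_zero]
        exact hγp.le) (norm_nonneg _) hK.le)
  have a3 := congrArg μ (ind_mul_add {n | γ ≤ |x n|} x)
  have a4 := sv_union (μ := μ) I.solid (disjoint_compl_right (a := {n | γ ≤ |x n|}))
  have a5 : (‖μ‖ + 1) * γ = η / 2 := by rw [hγ]; field_simp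
  rw [union_compl_self] at a4
  rw [map_add] at a3
  linarith [abs_le.1 a1, abs_le.1 a2]

/-- block systems -/
structure Sys : Type where
  /-- the block of a point -/
  blk : ℕ → ℕ
  /-- the small set attached to a point -/
  R : ℕ → Finset ℕ
  /-- width of a block -/
  w : ℕ → ℕ
  /-- the blocks -/
  X : ℕ → Finset ℕ
  mem_X : ∀ n j, n ∈ X j ↔ blk n = j
  card_R : ∀ n, (R n).card ≤ w (blk n)
  cover : ∀ j (K : Finset ℕ), K ⊆ Finset.range ((j + 1) * w j) → K.card ≤ w j →
    ∃ n, blk n = j ∧ K ⊆ R n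
  grow : ∀ j, (j + 1) * (∑ i ∈ Finset.range j, (X i).card + j + 1) ≤ w j

theorem exists_sys : Nonempty Sys := by
  let d : ℕ → ℕ := fun j => Nat.rec 0 (fun j d => d + 2 ^ ((j + 1) * ((j + 1) * (d + j + 1)))) j
  let w : ℕ → ℕ := fun j => (j + 1) * (d j + j + 1)
  let Ω := {x : ℕ × Finset ℕ // x.2 ⊆ Finset.range ((x.1 + 1) * w x.1) ∧ x.2.card ≤ w x.1}
  have : Infinite Ω := Infinite.of_injective
    (fun j : ℕ => (⟨(j, ∅), Finset.empty_subset _, Nat.zero_le _⟩ : Ω))
    fun a b h => congrArg (fun x : Ω => x.1.1) h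
  obtain ⟨e⟩ : Nonempty (ℕ ≃ Ω) := nonempty_equiv_of_countable
  have hinj : ∀ j, InjOn (fun n => (e n).1.2) {n | (e n).1.1 = j} := fun j a ha b hb h =>
    e.injective (Subtype.ext (Prod.ext (ha.trans hb.symm) h))
  have hmaps : ∀ j, MapsTo (fun n => (e n).1.2) {n | (e n).1.1 = j}
      ((Finset.range ((j + 1) * w j)).powerset : Set (Finset ℕ)) := fun j n hn => by
    have := (e n).2.1
    rw [show (e n).1.1 = j from hn] at this
    exact Finset.mem_powerset.2 this
  have hfin : ∀ j, {n | (e n).1.1 = j}.Finite := fun j =>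
    Finite.of_finite_image ((Finset.finite_toSet _).subset (hmaps j).image_subset) (hinj j)
  have hcard : ∀ j, (hfin j).toFinset.card ≤ 2 ^ ((j + 1) * w j) := fun j => by
    have := Finset.card_le_card_of_injOn (s := (hfin j).toFinset) (fun n => (e n).1.2)
      (t := (Finset.range ((j + 1) * w j)).powerset)
      (by rw [Finite.coe_toFinset]; exact hmaps j) (by simpa using hinj j)
    simpa using this
  have hd : ∀ j, ∑ i ∈ Finset.range j, (hfin i).toFinset.card ≤ d j := fun j => by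
    induction j with
    | zero => simp
    | succ j ih => rw [Finset.sum_range_succ]; exact add_le_add ih (hcard j)
  refine ⟨⟨fun n => (e n).1.1, fun n => (e n).1.2, w, fun j => (hfin j).toFinset,
    fun n j => by simp, fun n => (e n).2.2, fun j K h h' => ⟨e.symm ⟨(j, K), h, h'⟩, by simp, by simp⟩,
    fun j => Nat.mul_le_mul_left _ (by linarith [hd j])⟩⟩

namespace Sys

variable (S : Sys)

/-- `A` is covered in block `j` by at most `w j / r` basic sets -/
def Small (j r : ℕ) (A : Set ℕ) : Prop :=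
  ∃ K : Finset ℕ, K ⊆ Finset.range ((j + 1) * S.w j) ∧ r * K.card ≤ S.w j ∧
    ∀ n ∈ A, S.blk n = j → ∃ i ∈ K, i ∉ S.R n

variable {S}

theorem Small.mono {j r r' : ℕ} {A B : Set ℕ} (h : S.Small j r A) (hr : r' ≤ r)
    (hB : ∀ n ∈ B, S.blk n = j → n ∈ A) : S.Small j r' B := by
  obtain ⟨K, h1, h2, h3⟩ := h
  exact ⟨K, h1, (Nat.mul_le_mul_right _ hr).trans h2, fun n hn hj => h3 n (hB n hn hj) hj⟩

theorem Small.union {j r : ℕ} {A B : Set ℕ} (h : S.Small j (2 * r) A) (h' : S.Small j (2 * r) B) :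
    S.Small j r (A ∪ B) := by
  obtain ⟨K, h1, h2, h3⟩ := h
  obtain ⟨K', g1, g2, g3⟩ := h'
  refine ⟨K ∪ K', Finset.union_subset h1 g1, ?_, ?_⟩
  · nlinarith [Nat.mul_le_mul_left r (Finset.card_union_le K K')]
  · rintro n (hn | hn) hj
    · obtain ⟨i, hi, h⟩ := h3 n hn hj
      exact ⟨i, Finset.mem_union_left _ hi, h⟩
    · obtain ⟨i, hi, h⟩ := g3 n hn hj
      exact ⟨i, Finset.mem_union_right _ hi, h⟩

theorem Small.exists_notMem {j : ℕ} {A : Set ℕ} (h : S.Small j 1 A) :
    ∃ n, S.blk n = j ∧ n ∉ A := by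
  obtain ⟨K, h1, h2, h3⟩ := h
  obtain ⟨n, hn, h4⟩ := S.cover j K h1 (by simpa using h2)
  refine ⟨n, hn, fun h => ?_⟩
  obtain ⟨i, hi, h⟩ := h3 n h hn
  exact h (h4 hi)

theorem small_basic {j : ℕ} {s : Finset ℕ} (hs : (j + 1) * s.card ≤ S.w j) {i : ℕ → ℕ}
    (hi : ∀ k, i k < (j + 1) * S.w j) : S.Small j (j + 1) {n | ∃ k ∈ s, i k ∉ S.R n} := by
  refine ⟨s.image i, fun x hx => ?_, (Nat.mul_le_mul_left _ Finset.card_image_le).trans hs, ?_⟩
  · obtain ⟨k, -, rfl⟩ := Finset.mem_image.1 hx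
    exact Finset.mem_range.2 (hi k)
  · rintro n ⟨k, hk, h⟩ -
    exact ⟨_, Finset.mem_image_of_mem i hk, h⟩

variable (S)

/-- the ideal given by an infinite set of blocks -/
def ideal (L : Set ℕ) (hL : L.Infinite) : IdealOn where
  sets := {A | ∀ r, ∀ᶠ j in atTop, j ∈ L → S.Small j r A}
  union A hA B hB r := by
    filter_upwards [hA (2 * r), hB (2 * r)] with j h h' hj using (h hj).union (h' hj)
  subset A hA B h r := (hA r).mono fun j h' hj => (h' hj).mono le_rfl fun n hn _ => h hn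
  proper h := by
    obtain ⟨m, hm⟩ := eventually_atTop.1 (h 1)
    obtain ⟨j, hj, h'⟩ := hL.exists_gt m
    obtain ⟨n, -, hn⟩ := (hm j h'.le hj).exists_notMem
    exact hn trivial
  finite A hA r := by
    obtain ⟨m, hm⟩ := (hA.image S.blk).bddAbove
    filter_upwards [eventually_gt_atTop m] with j hj _
    exact ⟨∅, Finset.empty_subset _, by simp,
      fun n hn e => absurd (hm ⟨n, hn, e⟩) (not_le.2 hj)⟩

/-- the points in blocks before `a` -/
def early (a : ℕ) : Finset ℕ := (Finset.range a).biUnion S.X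

theorem mem_early {a n : ℕ} : n ∈ S.early a ↔ S.blk n < a := by simp [early, S.mem_X]

theorem card_early (a : ℕ) : (a + 1) * (S.early a).card ≤ S.w a :=
  (Nat.mul_le_mul_left _ (Finset.card_biUnion_le.trans (by omega))).trans (S.grow a)

theorem exists_basic {X : Submodule ℝ E} (hX : Solid X) (μ : E →L[ℝ] ℝ) (j : ℕ) :
    ∃ i < (j + 1) * S.w j, sv X μ {n | S.blk n = j ∧ i ∈ S.R n} ≤
      sv X μ {n | S.blk n = j} / (j + 1) := by
  have hw : 0 < S.w j := lt_of_lt_of_le (by positivity) (S.grow j)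
  have h1 : ∀ i, sv X μ {n | S.blk n = j ∧ i ∈ S.R n} ≤
      ∑ n ∈ S.X j, if i ∈ S.R n then sv X μ {n} else 0 := fun i => by
    rw [← Finset.sum_filter]
    refine (sv_mono fun n hn => ?_).trans (sv_biUnion_le hX _ fun n => {n})
    exact mem_biUnion (x := n) (Finset.mem_filter.2 ⟨(S.mem_X _ _).2 hn.1, hn.2⟩) rfl
  have h2 : ∑ n ∈ S.X j, sv X μ {n} ≤ sv X μ {n | S.blk n = j} :=
    (sum_sv_le hX (S.X j) (fun n => {n}) fun a _ b _ h => disjoint_singleton.2 h).trans
      (sv_mono fun n hn => by simpa [S.mem_X] using hn)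
  obtain ⟨i, hi, h⟩ := Finset.exists_le_of_sum_le (s := Finset.range ((j + 1) * S.w j))
    (f := fun i => sv X μ {n | S.blk n = j ∧ i ∈ S.R n})
    (g := fun _ => sv X μ {n | S.blk n = j} / (j + 1))
    (Finset.nonempty_range_iff.2 (by positivity)) (by
      refine (Finset.sum_le_sum fun i _ => h1 i).trans ?_
      rw [Finset.sum_comm, Finset.sum_const, Finset.card_range, nsmul_eq_mul]
      refine (Finset.sum_le_sum (g := fun n => S.w j * sv X μ {n}) fun n hn => ?_).trans ?_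
      · rw [← Finset.sum_filter, Finset.sum_const, nsmul_eq_mul]
        refine mul_le_mul_of_nonneg_right (Nat.cast_le.2 ?_) (sv_nonneg _)
        rw [← (S.mem_X _ _).1 hn]
        exact (Finset.card_le_card fun i hi => (Finset.mem_filter.1 hi).2).trans (S.card_R n)
      · rw [← Finset.mul_sum]
        refine (mul_le_mul_of_nonneg_left h2 (Nat.cast_nonneg _)).trans (le_of_eq ?_)
        push_cast
        field_simp)
  exact ⟨i, Finset.mem_range.1 hi, h⟩

theorem capture {L : Set ℕ} (hL : L.Infinite) (μ : ℕ → E →L[ℝ] ℝ) (a : ℕ → ℕ)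
    (hfew : ∀ j, ∃ s : Finset ℕ, (∀ k, a k < j → k ∈ s) ∧ (j + 1) * s.card ≤ S.w j) :
    ∃ C ∈ (S.ideal L hL).sets, ∀ k,
      sv (S.ideal L hL).c0 (μ k) ({n | a k < S.blk n} \ C) ≤ (‖μ k‖ + 1) / (a k + 1) := by
  classical
  have hX := (S.ideal L hL).solid
  choose C hC hC' using fun k => (S.ideal L hL).exists_conc (μ k)
    (show (0 : ℝ) < 1 / (a k + 1) by positivity)
  choose m hm using fun p => eventually_atTop.1
    ((S.ideal L hL).biUnion_mem (Finset.range (p + 1)) hC (p + 1))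
  choose i hi hi' using fun k => S.exists_basic hX (μ k)
  refine ⟨{n | ∃ k, (m k ≤ S.blk n ∧ k ≤ S.blk n) ∧ n ∈ C k} ∪
    {n | ∃ k, a k < S.blk n ∧ i k (S.blk n) ∉ S.R n}, (S.ideal L hL).union _ (fun r => ?_) _
      fun r => ?_, fun k => ?_⟩
  · filter_upwards [eventually_ge_atTop (m r), eventually_ge_atTop r] with j h1 h2 hj
    refine (hm _ j (Nat.findGreatest_spec (P := fun p => m p ≤ j) h2 h1) hj).mono
      ((Nat.le_findGreatest h2 h1).trans (Nat.le_succ _)) ?_
    rintro n ⟨k, ⟨h3, h4⟩, h5⟩ rfl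
    exact mem_biUnion (Finset.mem_range.2 (Nat.lt_succ_of_le (Nat.le_findGreatest h4 h3))) h5
  · filter_upwards [eventually_ge_atTop r] with j h1 _
    obtain ⟨s, hs, hs'⟩ := hfew j
    refine (small_basic hs' fun k => hi k j).mono (h1.trans (Nat.le_succ _)) ?_
    rintro n ⟨k, h3, h4⟩ rfl
    exact ⟨k, hs k h3, h4⟩
  · refine (sv_mono (B := (C k)ᶜ ∪ ⋃ j ∈ Finset.Ioo (a k) (max (m k) k),
      {n | S.blk n = j ∧ i k j ∈ S.R n}) fun n hn => ?_).trans ((sv_union_le hX _ _).trans ?_)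
    · by_cases h : n ∈ C k
      · refine Or.inr (mem_biUnion (x := S.blk n) (Finset.mem_Ioo.2 ⟨hn.1, ?_⟩) ⟨rfl, ?_⟩)
        · exact not_le.1 fun h' => hn.2 (Or.inl ⟨k, max_le_iff.1 h', h⟩)
        · by_contra h'
          exact hn.2 (Or.inr ⟨k, hn.1, h'⟩)
      · exact Or.inl h
    · have a1 := (sv_biUnion_le (μ := μ k) hX (Finset.Ioo (a k) (max (m k) k))
        fun j => {n | S.blk n = j ∧ i k j ∈ S.R n}).trans (Finset.sum_le_sum
          (g := fun j => sv (S.ideal L hL).c0 (μ k) {n | S.blk n = j} / (a k + 1)) fun j hj =>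
            (hi' k j).trans (div_le_div_of_nonneg_left (sv_nonneg _) (by positivity) (by
              exact_mod_cast Nat.succ_le_succ (Finset.mem_Ioo.1 hj).1.le)))
      have a2 := (sum_sv_le (μ := μ k) hX (Finset.Ioo (a k) (max (m k) k))
        (fun j => {n | S.blk n = j}) fun b _ c _ h =>
          disjoint_left.2 fun n h1 h2 => h (h1.symm.trans h2)).trans (sv_le_norm _)
      rw [← Finset.sum_div] at a1
      have a3 := div_le_div_of_nonneg_right a2 (show (0 : ℝ) ≤ a k + 1 by positivity)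
      rw [add_div]
      linarith [hC' k]

theorem isGrothendieck {L : Set ℕ} (hL : L.Infinite) : IsGrothendieck (S.ideal L hL).c0 := by
  refine groth (S.ideal L hL).solid (S.ideal L hL).isClosed fun μ B K ε hB hε hK h => ?_
  obtain ⟨a₀, ha₀⟩ := exists_nat_gt ((K + 1) / (ε / 2))
  obtain ⟨k, hk, h1⟩ := extraction_forall_of_eventually
    (P := fun a k => ∀ n ∈ S.early (a + a₀ + 1), n ∉ B k) fun a =>
      (eventually_all_finset _).2 fun n _ => by
        rw [← Nat.cofinite_eq_atTop, eventually_cofinite]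
        refine Subsingleton.finite fun b hb c hc => ?_
        by_contra e
        exact disjoint_left.1 (hB e) (not_not.1 hb) (not_not.1 hc)
  obtain ⟨C, hC, h2⟩ := S.capture hL (fun a => μ (k a)) (fun a => a + a₀) fun j =>
    ⟨Finset.range j, fun k hk => Finset.mem_range.2 (by omega),
      (Nat.mul_le_mul_left _ (by rw [Finset.card_range]; omega)).trans (S.grow j)⟩
  refine ⟨k, C, hk, (S.ideal L hL).ind_mem hC, fun a => ?_⟩
  have a1 := (sv_mono (X := (S.ideal L hL).c0) (μ := μ (k a)) (A := B (k a))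
    (B := (B (k a) ∩ C) ∪ ({n | a + a₀ < S.blk n} \ C)) fun n hn => by
      by_cases hc : n ∈ C
      · exact Or.inl ⟨hn, hc⟩
      · exact Or.inr ⟨not_le.1 fun h' => h1 a n (S.mem_early.2 (Nat.lt_succ_of_le h')) hn, hc⟩).trans
    (sv_union_le (S.ideal L hL).solid _ _)
  have a2 : (‖μ (k a)‖ + 1) / (((a + a₀ : ℕ) : ℝ) + 1) ≤ ε / 2 := by
    rw [div_lt_iff₀ (half_pos hε)] at ha₀
    rw [div_le_iff₀ (by positivity)]
    push_cast
    nlinarith [hK (k a), (Nat.cast_nonneg a : (0 : ℝ) ≤ a)]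
  linarith [h (k a), h2 a]

theorem measurableSet_code {L : Set ℕ} (hL : L.Infinite) :
    MeasurableSet (S.ideal L hL).code := by
  change MeasurableSet {f : ℕ → Bool | ∀ r, ∀ᶠ j in atTop, j ∈ L → S.Small j r {n | f n = true}}
  simp only [eventually_atTop, Small, mem_ofPred_eq]
  measurability

end Sys

end Pool.Agent.P.MP_7e1ced_an
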