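import Mathlib

set_option autoImplicit false

namespace Pool.Agent.P.MP_7e1ced_an

open Filter Topology

/-- proper ideals on `ℕ` containing all finite sets -/
structure IdealOn : Type where
  /-- the members of the ideal -/
  sets : Set (Set ℕ)
  union : ∀ A ∈ sets, ∀ B ∈ sets, A ∪ B ∈ sets
  subset : ∀ A ∈ sets, ∀ B, B ⊆ A → B ∈ sets
  proper : Set.univ ∉ sets
  finite : ∀ A : Set ℕ, A.Finite → A ∈ sets

/-- the ideal as a subset of the Cantor space -/
def IdealOn.code (I : IdealOn) : Set (ℕ → Bool) := {f | {n | f n = true} ∈ I.sets}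

/-- the bounded real sequences converging to zero along the ideal -/
def IdealOn.c0 (I : IdealOn) : Submodule ℝ (BoundedContinuousFunction ℕ ℝ) where
  carrier := {x | ∀ ε > 0, {n | ε ≤ |x n|} ∈ I.sets}
  zero_mem' ε hε := I.finite _ (Set.finite_empty.subset fun n hn => by
    simp only [Set.mem_ofPred_eq, BoundedContinuousFunction.coe_zero, Pi.zero_apply, abs_zero] at hn
    exact absurd hε (not_lt.2 hn))
  add_mem' {x y} hx hy ε hε := I.subset _ (I.union _ (hx (ε / 2) (half_pos hε)) _
    (hy (ε / 2) (half_pos hε))) _ fun n hn => by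
      simp only [Set.mem_ofPred_eq, BoundedContinuousFunction.coe_add, Pi.add_apply,
        Set.mem_union] at hn ⊢
      by_contra h
      push Not at h
      linarith [abs_add_le (x n) (y n)]
  smul_mem' c x hx ε hε := I.subset _ (hx (ε / (|c| + 1)) (by positivity)) _ fun n hn => by
    simp only [Set.mem_ofPred_eq, BoundedContinuousFunction.coe_smul, smul_eq_mul, abs_mul] at hn ⊢
    rw [div_le_iff₀ (by positivity)]
    nlinarith [abs_nonneg (x n)]

/-- weak-star null sequences of functionals are weakly null -/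
def IsGrothendieck (X : Type) [NormedAddCommGroup X] [NormedSpace ℝ X] : Prop :=
  ∀ μ : ℕ → StrongDual ℝ X, (∀ x, Tendsto (fun n => μ n x) atTop (𝓝 0)) →
    ∀ Φ : StrongDual ℝ (StrongDual ℝ X), Tendsto (fun n => Φ (μ n)) atTop (𝓝 0)

/-- the number of isomorphism classes of Grothendieck spaces `c0 I`, where `I` ranges over the
ideals whose code has the property `P` -/
noncomputable def numClasses (P : Set (ℕ → Bool) → Prop) : Cardinal :=
  Cardinal.mk (Quot fun I J : {I : IdealOn // P I.code ∧ IsGrothendieck I.c0} =>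
    Nonempty (I.1.c0 ≃L[ℝ] J.1.c0))

end Pool.Agent.P.MP_7e1ced_an
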