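import Mathlib

set_option autoImplicit false

/-! Diagonal selection, a finite Goldstine lemma and a parallelogram argument. -/

namespace Pool.Agent.P.MP_7e1ced_an

open Set Filter

theorem exists_small (m : Set ℕ → ℝ) (hmono : ∀ A B, A ⊆ B → m A ≤ m B)
    (hadd : ∀ A B, Disjoint A B → m A + m B ≤ m (A ∪ B)) {δ : ℝ} (hδ : 0 < δ) (S : Set ℕ)
    (hS : S.Infinite) : ∃ T ⊆ S, T.Infinite ∧ m T ≤ δ := by
  have half : ∀ T : Set ℕ, T.Infinite → ∃ T' ⊆ T, T'.Infinite ∧ m T' ≤ m T / 2 := by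
    intro T hT
    let e := hT.natEmbedding T
    have hi : ∀ c : ℕ, Function.Injective fun n : ℕ => (e (2 * n + c) : ℕ) := fun c a b h => by
      have := e.injective (Subtype.ext h)
      omega
    have hs : ∀ c : ℕ, range (fun n : ℕ => (e (2 * n + c) : ℕ)) ⊆ T := by
      rintro c _ ⟨n, rfl⟩
      exact (e _).2
    have hd : Disjoint (range fun n : ℕ => (e (2 * n + 0) : ℕ))
        (range fun n : ℕ => (e (2 * n + 1) : ℕ)) := by
      rw [disjoint_left]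
      rintro _ ⟨a, rfl⟩ ⟨b, h⟩
      have := e.injective (Subtype.ext h)
      omega
    have h1 := (hadd _ _ hd).trans (hmono _ _ (union_subset (hs 0) (hs 1)))
    by_cases h : m (range fun n : ℕ => (e (2 * n + 0) : ℕ)) ≤ m T / 2
    · exact ⟨_, hs 0, infinite_range_of_injective (hi 0), h⟩
    · exact ⟨_, hs 1, infinite_range_of_injective (hi 1), by linarith⟩
  have iter : ∀ k : ℕ, ∃ T ⊆ S, T.Infinite ∧ m T ≤ |m S| * (1 / 2) ^ k := by
    intro k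
    induction k with
    | zero => exact ⟨S, subset_rfl, hS, by simpa using le_abs_self _⟩
    | succ k ih =>
      obtain ⟨T, h1, h2, h3⟩ := ih
      obtain ⟨T', h4, h5, h6⟩ := half T h2
      exact ⟨T', h4.trans h1, h5, by rw [pow_succ]; linarith⟩
  obtain ⟨k, hk⟩ := exists_pow_lt_of_lt_one (x := δ / (|m S| + 1)) (y := 1 / 2) (by positivity)
    (by norm_num)
  obtain ⟨T, h1, h2, h3⟩ := iter k
  refine ⟨T, h1, h2, h3.trans ?_⟩
  rw [lt_div_iff₀ (by positivity)] at hk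
  nlinarith [pow_pos (show (0 : ℝ) < 1 / 2 by norm_num) k]

theorem diag (Q : ℕ → Set ℕ → Prop) (hQ : ∀ k (S : Set ℕ), S.Infinite → ∃ T ⊆ S, T.Infinite ∧ Q k T)
    (hmono : ∀ k A B, A ⊆ B → Q k B → Q k A) (P : ℕ → ℕ → Prop) (hP : ∀ a, ∀ᶠ b in atTop, P a b)
    {S : Set ℕ} (hS : S.Infinite) : ∃ s : ℕ → ℕ, StrictMono s ∧ (∀ i, s i ∈ S) ∧
      (∀ i, P (s i) (s (i + 1))) ∧ ∀ i, Q (s i) (s '' Ioi i) := by
  have step : ∀ x : {x : ℕ × Set ℕ // x.2.Infinite}, ∃ y : {x : ℕ × Set ℕ // x.2.Infinite},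
      x.1.1 < y.1.1 ∧ y.1.1 ∈ x.1.2 ∧ P x.1.1 y.1.1 ∧ y.1.2 ⊆ x.1.2 ∧ Q y.1.1 y.1.2 := by
    rintro ⟨⟨a, T⟩, hT⟩
    obtain ⟨c, hc⟩ := eventually_atTop.1 (hP a)
    obtain ⟨b, hb, hb'⟩ := hT.exists_gt (max a c)
    obtain ⟨T', h1, h2, h3⟩ := hQ b T hT
    exact ⟨⟨(b, T'), h2⟩, (le_max_left _ _).trans_lt hb', hb,
      hc b ((le_max_right _ _).trans hb'.le), h1, h3⟩
  choose g h1 h2 h3 h4 h5 using step
  let x : ℕ → {x : ℕ × Set ℕ // x.2.Infinite} := fun n => g^[n] ⟨(0, S), hS⟩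
  have hx : ∀ n, x (n + 1) = g (x n) := fun n => Function.iterate_succ_apply' _ _ _
  have ha : Antitone fun n => (x n).1.2 := antitone_nat_of_succ_le fun n => by
    rw [hx]; exact h4 _
  have hm : ∀ n, (x (n + 1)).1.1 ∈ (x n).1.2 := fun n => by rw [hx]; exact h2 _
  refine ⟨fun n => (x (n + 1)).1.1, strictMono_nat_of_lt_succ fun n => ?_,
    fun n => ha (Nat.zero_le n) (hm n), fun n => ?_, fun n => hmono _ _ (x (n + 1)).1.2 ?_ ?_⟩
  · rw [hx (n + 1)]; exact h1 _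
  · beta_reduce
    rw [hx (n + 1)]; exact h3 _
  · rintro _ ⟨j, hj, rfl⟩
    exact ha (Nat.succ_le_of_lt hj) (hm j)
  · beta_reduce
    rw [hx n]; exact h5 _

theorem goldstine {Y : Type} [NormedAddCommGroup Y] [NormedSpace ℝ Y]
    (Φ : StrongDual ℝ (StrongDual ℝ Y)) {c : ℝ} (hc : 0 < c) (hΦ : ‖Φ‖ ≤ c)
    (μ : ℕ → StrongDual ℝ Y) (r : ℕ) {δ : ℝ} (hδ : 0 < δ) :
    ∃ x, ‖x‖ ≤ c ∧ ∀ n < r, |μ n x - Φ (μ n)| < δ := by
  let T : Y →L[ℝ] (Fin r → ℝ) := ContinuousLinearMap.pi fun i => μ i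
  have hconv : Convex ℝ (closure (T '' Metric.closedBall 0 c)) :=
    ((convex_closedBall 0 c).linear_image T.toLinearMap).closure
  have hmem : (fun i : Fin r => Φ (μ i)) ∈ closure (T '' Metric.closedBall 0 c) := by
    by_contra h
    obtain ⟨f, u, h1, h2⟩ := geometric_hahn_banach_closed_point hconv isClosed_closure h
    have h3 : ∀ x, ‖x‖ ≤ c → f (T x) < u := fun x hx =>
      h1 _ (subset_closure ⟨x, by simpa using hx, rfl⟩)
    have hu : 0 < u := by simpa using h3 0 (by simpa using hc.le)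
    have h4 : ‖f.comp T‖ ≤ u / c := by
      refine ContinuousLinearMap.opNorm_le_of_unit_norm (by positivity) fun x hx => ?_
      have a1 := h3 (c • x) (by rw [norm_smul, hx, Real.norm_of_nonneg hc.le, mul_one])
      have a2 := h3 (-(c • x)) (by rw [norm_neg, norm_smul, hx, Real.norm_of_nonneg hc.le, mul_one])
      simp only [map_neg, map_smul, smul_eq_mul] at a1 a2
      rw [Real.norm_eq_abs, le_div_iff₀ hc, ← abs_of_pos hc, ← abs_mul, abs_le]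
      constructor
      · change -u ≤ f (T x) * c
        linarith
      · change f (T x) * c ≤ u
        linarith
    have h5 : f.comp T = ∑ i : Fin r, f (fun j => if i = j then 1 else 0) • μ i := by
      ext x
      have := LinearMap.pi_apply_eq_sum_univ f.toLinearMap (T x)
      simpa [T, mul_comm] using this
    have h6 : f (fun i : Fin r => Φ (μ i)) = Φ (f.comp T) := by
      have := LinearMap.pi_apply_eq_sum_univ f.toLinearMap (fun i : Fin r => Φ (μ i))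
      rw [h5, map_sum]
      simpa [mul_comm] using this
    have h7 := (le_abs_self _).trans (Φ.le_opNorm (f.comp T))
    have h8 : ‖Φ‖ * ‖f.comp T‖ ≤ c * (u / c) := mul_le_mul hΦ h4 (norm_nonneg _) hc.le
    rw [mul_div_cancel₀ _ hc.ne'] at h8
    linarith
  obtain ⟨_, ⟨x, hx, rfl⟩, h⟩ := Metric.mem_closure_iff.1 hmem δ hδ
  refine ⟨x, by simpa using hx, fun n hn => ?_⟩
  have := (dist_le_pi_dist _ _ ⟨n, hn⟩).trans_lt h
  rwa [dist_comm] at this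

theorem exists_close {Y : Type} [AddCommGroup Y] [Module ℝ Y] (q : Y → ℝ) (h0 : ∀ x, 0 ≤ q x)
    (hq : ∀ x y, q (x - y) + 4 * q ((1 / 2 : ℝ) • (x + y)) = 2 * q x + 2 * q y)
    (C : ℕ → Set Y) (hC : Antitone C) (hne : ∀ t, (C t).Nonempty)
    (hmid : ∀ t, ∀ x ∈ C t, ∀ y ∈ C t, (1 / 2 : ℝ) • (x + y) ∈ C t) {M : ℝ}
    (hM : ∀ x ∈ C 0, q x ≤ M) {η : ℝ} (hη : 0 < η) :
    ∃ x ∈ C 0, ∀ t, ∃ y ∈ C t, q (x - y) ≤ η := by
  let a : ℕ → ℝ := fun t => sInf (q '' C t)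
  have hb : ∀ t, BddBelow (q '' C t) := fun t => ⟨0, by rintro _ ⟨x, -, rfl⟩; exact h0 x⟩
  have h1 : ∀ t, ∀ x ∈ C t, a t ≤ q x := fun t x hx => csInf_le (hb t) ⟨x, hx, rfl⟩
  have h2 : BddAbove (range a) := ⟨M, by
    rintro _ ⟨t, rfl⟩
    obtain ⟨x, hx⟩ := hne t
    exact (h1 t x hx).trans (hM x (hC (Nat.zero_le t) hx))⟩
  have h3 : ∀ t, ∃ x ∈ C t, q x < iSup a + η / 8 := fun t => by
    obtain ⟨_, ⟨x, hx, rfl⟩, h⟩ := exists_lt_of_csInf_lt ((hne t).image q)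
      (show a t < iSup a + η / 8 by linarith [le_ciSup h2 t])
    exact ⟨x, hx, h⟩
  obtain ⟨t₀, h4⟩ := exists_lt_of_lt_ciSup (show iSup a - η / 8 < iSup a by linarith)
  obtain ⟨x, hx, h5⟩ := h3 t₀
  refine ⟨x, hC (Nat.zero_le _) hx, fun t => ?_⟩
  obtain ⟨y, hy, h6⟩ := h3 (max t t₀)
  refine ⟨y, hC (le_max_left _ _) hy, ?_⟩
  have := h1 _ _ (hmid t₀ x hx y (hC (le_max_right _ _) hy))
  linarith [hq x y]

end Pool.Agent.P.MP_7e1ced_an
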