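import Mathlib

set_option autoImplicit false

/-! Variation of a functional on bounded sequences along a solid subspace. -/

namespace Pool.Agent.P.MP_7e1ced_an

open Set

/-- bounded real sequences -/
abbrev E : Type := BoundedContinuousFunction ℕ ℝ

theorem abs_le_norm (x : E) (n : ℕ) : |x n| ≤ ‖x‖ := x.norm_coe_le_norm n

theorem norm_le_of {x : E} {c : ℝ} (h : ∀ n, |x n| ≤ c) : ‖x‖ ≤ c :=
  BoundedContinuousFunction.norm_le_of_nonempty.2 h

/-- a bounded sequence from a bound -/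
def mkE (f : ℕ → ℝ) (c : ℝ) (h : ∀ n, |f n| ≤ c) : E :=
  BoundedContinuousFunction.ofNormedAddCommGroupDiscrete f c h

@[simp] theorem mkE_apply (f : ℕ → ℝ) (c : ℝ) (h : ∀ n, |f n| ≤ c) (n : ℕ) : mkE f c h n = f n :=
  rfl

open Classical in
/-- indicator sequences -/
noncomputable def ind (A : Set ℕ) : E :=
  mkE (fun n => if n ∈ A then 1 else 0) 1 fun n => by split_ifs <;> simp

theorem ind_of_mem {A : Set ℕ} {n : ℕ} (h : n ∈ A) : ind A n = 1 := if_pos h

theorem ind_of_notMem {A : Set ℕ} {n : ℕ} (h : n ∉ A) : ind A n = 0 := if_neg h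

theorem ind_nonneg (A : Set ℕ) (n : ℕ) : 0 ≤ ind A n := by
  by_cases h : n ∈ A
  · simp [ind_of_mem h]
  · simp [ind_of_notMem h]

theorem ind_union {A B : Set ℕ} (h : Disjoint A B) : ind (A ∪ B) = ind A + ind B := by
  ext n
  by_cases ha : n ∈ A
  · simp [ind_of_mem ha, ind_of_mem (mem_union_left B ha), ind_of_notMem (disjoint_left.1 h ha)]
  · by_cases hb : n ∈ B
    · simp [ind_of_mem hb, ind_of_mem (mem_union_right A hb), ind_of_notMem ha]
    · simp [ind_of_notMem ha, ind_of_notMem hb, ind_of_notMem (A := A ∪ B) (not_or.2 ⟨ha, hb⟩)]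

theorem abs_ind_mul_le (A : Set ℕ) (x : E) (n : ℕ) : |(ind A * x) n| ≤ |x n| := by
  by_cases h : n ∈ A
  · simp [ind_of_mem h]
  · simp [ind_of_notMem h]

theorem norm_ind_mul_le (A : Set ℕ) (x : E) : ‖ind A * x‖ ≤ ‖x‖ :=
  norm_le_of fun n => (abs_ind_mul_le A x n).trans (abs_le_norm x n)

theorem norm_ind_le (A : Set ℕ) : ‖ind A‖ ≤ 1 :=
  norm_le_of fun n => by
    by_cases h : n ∈ A
    · simp [ind_of_mem h]
    · simp [ind_of_notMem h]

theorem ind_mul_add (A : Set ℕ) (x : E) : ind A * x + ind Aᶜ * x = x := by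
  ext n
  by_cases h : n ∈ A
  · simp [ind_of_mem h, ind_of_notMem (A := Aᶜ) (not_not.2 h)]
  · simp [ind_of_notMem h, ind_of_mem (A := Aᶜ) h]

/-- solid subspaces -/
def Solid (X : Submodule ℝ E) : Prop := ∀ x ∈ X, ∀ y : E, (∀ n, |y n| ≤ |x n|) → y ∈ X

theorem solid_top : Solid ⊤ := fun _ _ _ _ => trivial

/-- variation -/
noncomputable def var (X : Submodule ℝ E) (μ : E →L[ℝ] ℝ) (u : E) : ℝ :=
  sSup {r | ∃ x ∈ X, (∀ n, |x n| ≤ u n) ∧ r = μ x}

variable {X : Submodule ℝ E} {μ : E →L[ℝ] ℝ}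

theorem apply_le {u x : E} (h : ∀ n, |x n| ≤ u n) : μ x ≤ ‖μ‖ * ‖u‖ :=
  (le_abs_self _).trans ((μ.le_opNorm x).trans (mul_le_mul_of_nonneg_left
    (norm_le_of fun n => (h n).trans ((le_abs_self _).trans (abs_le_norm u n))) (norm_nonneg _)))

theorem le_var {u x : E} (hx : x ∈ X) (h : ∀ n, |x n| ≤ u n) : μ x ≤ var X μ u :=
  le_csSup ⟨‖μ‖ * ‖u‖, by rintro _ ⟨y, -, hy, rfl⟩; exact apply_le hy⟩ ⟨x, hx, h, rfl⟩

theorem abs_le_var {u x : E} (hx : x ∈ X) (h : ∀ n, |x n| ≤ u n) : |μ x| ≤ var X μ u := by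
  refine abs_le.2 ⟨?_, le_var hx h⟩
  have := le_var (μ := μ) (u := u) (X.neg_mem hx) (fun n => by simpa using h n)
  rw [map_neg] at this
  linarith

theorem var_le {u : E} (hu : ∀ n, 0 ≤ u n) {c : ℝ}
    (h : ∀ x ∈ X, (∀ n, |x n| ≤ u n) → μ x ≤ c) : var X μ u ≤ c :=
  csSup_le ⟨_, 0, X.zero_mem, fun n => by simpa using hu n, rfl⟩
    (by rintro _ ⟨y, h1, h2, rfl⟩; exact h y h1 h2)

theorem var_nonneg {u : E} (hu : ∀ n, 0 ≤ u n) : 0 ≤ var X μ u := by
  simpa using le_var (μ := μ) (u := u) X.zero_mem (fun n => by simpa using hu n)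

theorem var_mono {u v : E} (hu : ∀ n, 0 ≤ u n) (h : ∀ n, u n ≤ v n) : var X μ u ≤ var X μ v :=
  var_le hu fun _ hx hx' => le_var hx fun n => (hx' n).trans (h n)

theorem var_le_norm {u : E} (hu : ∀ n, 0 ≤ u n) : var X μ u ≤ ‖μ‖ * ‖u‖ :=
  var_le hu fun _ _ h => apply_le h

theorem var_add (hX : Solid X) {u v : E} (hu : ∀ n, 0 ≤ u n) (hv : ∀ n, 0 ≤ v n) :
    var X μ (u + v) = var X μ u + var X μ v := by
  apply le_antisymm
  · refine var_le (fun n => add_nonneg (hu n) (hv n)) fun z hz h => ?_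
    have key : ∀ n, |((z ⊓ u) ⊔ (-u)) n| ≤ u n ∧ |((z ⊓ u) ⊔ (-u)) n| ≤ |z n| ∧
        |(z - ((z ⊓ u) ⊔ (-u))) n| ≤ v n ∧ |(z - ((z ⊓ u) ⊔ (-u))) n| ≤ |z n| := by
      intro n
      have h1 := abs_le.1 (h n)
      have h2 := hu n
      have h3 := hv n
      have h4 := le_abs_self (z n)
      have h5 := neg_abs_le (z n)
      simp only [BoundedContinuousFunction.coe_add, Pi.add_apply, BoundedContinuousFunction.coe_sup,
        BoundedContinuousFunction.coe_inf, BoundedContinuousFunction.coe_neg, Pi.sup_apply,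
        Pi.inf_apply, Pi.neg_apply, BoundedContinuousFunction.coe_sub, Pi.sub_apply, abs_le] at h1 ⊢
      rcases le_total (z n) (u n) with a | a
      · rw [inf_eq_left.2 a]
        rcases le_total (z n) (-u n) with b | b
        · rw [sup_eq_right.2 b]
          refine ⟨⟨?_, ?_⟩, ⟨?_, ?_⟩, ⟨?_, ?_⟩, ?_, ?_⟩ <;> linarith
        · rw [sup_eq_left.2 b]
          refine ⟨⟨?_, ?_⟩, ⟨?_, ?_⟩, ⟨?_, ?_⟩, ?_, ?_⟩ <;> linarith
      · rw [inf_eq_right.2 a, sup_eq_left.2 (by linarith)]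
        refine ⟨⟨?_, ?_⟩, ⟨?_, ?_⟩, ⟨?_, ?_⟩, ?_, ?_⟩ <;> linarith
    have h1 := le_var (μ := μ) (hX z hz _ fun n => (key n).2.1) fun n => (key n).1
    have h2 := le_var (μ := μ) (hX z hz _ fun n => (key n).2.2.2) fun n => (key n).2.2.1
    rw [map_sub] at h2
    linarith
  · have : var X μ u ≤ var X μ (u + v) - var X μ v := by
      refine var_le hu fun x hx h => ?_
      have : var X μ v ≤ var X μ (u + v) - μ x := by
        refine var_le hv fun y hy h' => ?_
        have := le_var (μ := μ) (u := u + v) (X.add_mem hx hy) fun n =>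
          (abs_add_le _ _).trans (add_le_add (h n) (h' n))
        rw [map_add] at this
        linarith
      linarith
    linarith

theorem var_smul_le {u : E} (hu : ∀ n, 0 ≤ u n) {c : ℝ} (hc : 0 < c) :
    var X μ (c • u) ≤ c * var X μ u := by
  refine var_le (fun n => mul_nonneg hc.le (hu n)) fun x hx h => ?_
  have := le_var (μ := μ) (u := u) (X.smul_mem c⁻¹ hx) fun n => by
    have := h n
    simp only [BoundedContinuousFunction.coe_smul, smul_eq_mul, abs_mul, abs_inv,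
      abs_of_pos hc] at this ⊢
    rwa [inv_mul_le_iff₀ hc]
  rw [map_smul, smul_eq_mul, inv_mul_le_iff₀ hc] at this
  exact this

/-- variation on a set -/
noncomputable def sv (X : Submodule ℝ E) (μ : E →L[ℝ] ℝ) (A : Set ℕ) : ℝ := var X μ (ind A)

theorem sv_nonneg (A : Set ℕ) : 0 ≤ sv X μ A := var_nonneg (ind_nonneg A)

theorem sv_mono {A B : Set ℕ} (h : A ⊆ B) : sv X μ A ≤ sv X μ B :=
  var_mono (ind_nonneg A) fun n => by
    by_cases ha : n ∈ A
    · rw [ind_of_mem ha, ind_of_mem (h ha)]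
    · rw [ind_of_notMem ha]; exact ind_nonneg B n

theorem sv_le_norm (A : Set ℕ) : sv X μ A ≤ ‖μ‖ :=
  (var_le_norm (ind_nonneg A)).trans (mul_le_of_le_one_right μ.opNorm_nonneg (norm_ind_le A))

theorem sv_union (hX : Solid X) {A B : Set ℕ} (h : Disjoint A B) :
    sv X μ (A ∪ B) = sv X μ A + sv X μ B := by
  rw [sv, ind_union h, var_add hX (ind_nonneg A) (ind_nonneg B)]
  rfl

theorem sv_union_le (hX : Solid X) (A B : Set ℕ) : sv X μ (A ∪ B) ≤ sv X μ A + sv X μ B := by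
  rw [← union_sdiff_self, sv_union hX disjoint_sdiff_right]
  exact add_le_add le_rfl (sv_mono sdiff_subset)

theorem sv_empty : sv X μ ∅ = 0 :=
  le_antisymm (var_le (ind_nonneg _) fun x _ h => by
    have : x = 0 := by
      ext n
      simpa [ind_of_notMem (notMem_empty n)] using h n
    simp [this]) (sv_nonneg _)

theorem sv_biUnion_le (hX : Solid X) {ι : Type} (s : Finset ι) (B : ι → Set ℕ) :
    sv X μ (⋃ i ∈ s, B i) ≤ ∑ i ∈ s, sv X μ (B i) := by
  classical
  induction s using Finset.induction_on with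
  | empty => simp [sv_empty]
  | insert a s ha ih =>
    rw [Finset.set_biUnion_insert, Finset.sum_insert ha]
    exact (sv_union_le hX _ _).trans (add_le_add le_rfl ih)

theorem sum_sv_le (hX : Solid X) {ι : Type} (s : Finset ι) (B : ι → Set ℕ)
    (h : ∀ i ∈ s, ∀ j ∈ s, i ≠ j → Disjoint (B i) (B j)) :
    ∑ i ∈ s, sv X μ (B i) ≤ sv X μ (⋃ i ∈ s, B i) := by
  classical
  induction s using Finset.induction_on with
  | empty => simp [sv_empty]
  | insert a s ha ih =>
    rw [Finset.set_biUnion_insert, Finset.sum_insert ha, sv_union hX]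
    · exact add_le_add le_rfl (ih fun i hi j hj =>
        h i (Finset.mem_insert_of_mem hi) j (Finset.mem_insert_of_mem hj))
    · simp only [disjoint_iUnion_right]
      exact fun i hi => h a (Finset.mem_insert_self _ _) i (Finset.mem_insert_of_mem hi)
        fun e => ha (e ▸ hi)

theorem abs_le_sv {x : E} (hx : x ∈ X) {A : Set ℕ} (h : ∀ n ∉ A, x n = 0) {c : ℝ} (hc : 0 < c)
    (hc' : ‖x‖ ≤ c) : |μ x| ≤ c * sv X μ A := by
  refine (abs_le_var (u := c • ind A) hx fun n => ?_).trans (var_smul_le (ind_nonneg A) hc)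
  by_cases ha : n ∈ A
  · simpa [ind_of_mem ha] using (abs_le_norm x n).trans hc'
  · simp [ind_of_notMem ha, h n ha]

theorem abs_ind_mul_le_sv (hX : Solid X) {x : E} (hx : x ∈ X) (A : Set ℕ) {c : ℝ} (hc : 0 < c)
    (hc' : ‖x‖ ≤ c) : |μ (ind A * x)| ≤ c * sv X μ A :=
  abs_le_sv (hX x hx _ (abs_ind_mul_le A x)) (fun n hn => by simp [ind_of_notMem hn]) hc
    ((norm_ind_mul_le A x).trans hc')

theorem exists_lt_sv {A : Set ℕ} {c : ℝ} (h : c < sv X μ A) :
    ∃ x ∈ X, (∀ n, |x n| ≤ ind A n) ∧ c < μ x := by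
  by_contra h'
  push Not at h'
  exact absurd (var_le (ind_nonneg A) h') (not_le.2 h)

end Pool.Agent.P.MP_7e1ced_an
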