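import Pool.Agent.P.MP_7e1ced_an.Defs
import Pool.Agent.P.MP_7e1ced_an.Var
import Pool.Agent.P.MP_7e1ced_an.Diag

set_option autoImplicit false

/-! A criterion for the Grothendieck property of solid subspaces. -/

namespace Pool.Agent.P.MP_7e1ced_an

open Set Filter Topology

/-- humps can be caught inside one member of the ideal -/
def Catch (X : Submodule ℝ E) : Prop :=
  ∀ (μ : ℕ → E →L[ℝ] ℝ) (B : ℕ → Set ℕ) (K ε : ℝ), Pairwise (fun i j => Disjoint (B i) (B j)) →
    0 < ε → (∀ k, ‖μ k‖ ≤ K) → (∀ k, ε < sv X (μ k) (B k)) →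
    ∃ (k : ℕ → ℕ) (C : Set ℕ), StrictMono k ∧ ind C ∈ X ∧ ∀ a, ε / 2 < sv X (μ (k a)) (B (k a) ∩ C)

variable {X : Submodule ℝ E}

theorem mem_of_supp (hX : Solid X) {C : Set ℕ} (hC : ind C ∈ X) {x : E}
    (h : ∀ n ∉ C, x n = 0) : x ∈ X := by
  refine hX _ (X.smul_mem ‖x‖ hC) x fun n => ?_
  by_cases hn : n ∈ C
  · simpa [ind_of_mem hn] using abs_le_norm x n
  · rw [h n hn, abs_zero]
    exact abs_nonneg _

theorem ind_mul_mem (hX : Solid X) {C : Set ℕ} (hC : ind C ∈ X) (x : E) : ind C * x ∈ X :=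
  mem_of_supp hX hC fun n hn => by simp [ind_of_notMem hn]

theorem exh (hX : Solid X) (hcap : Catch X) {μ : ℕ → E →L[ℝ] ℝ} {K : ℝ} (hK : ∀ n, ‖μ n‖ ≤ K)
    (hnull : ∀ x ∈ X, Tendsto (fun n => μ n x) atTop (𝓝 0)) {B : ℕ → Set ℕ}
    (hB : Pairwise fun i j => Disjoint (B i) (B j)) {ε : ℝ} (hε : 0 < ε) :
    ¬ ∀ k, ∃ n, ε < sv X (μ n) (B k) := by
  classical
  intro h
  choose n hn using h
  obtain ⟨k, C, hk, hC, h1⟩ := hcap (fun k => μ (n k)) B K ε hB hε (fun k => hK _) hn
  let D : ℕ → Set ℕ := fun a => B (k a) ∩ C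
  have hD : Pairwise fun i j => Disjoint (D i) (D j) := fun i j hij =>
    (hB (hk.injective.ne hij)).mono inter_subset_left inter_subset_left
  have hlim : Tendsto (fun a => n (k a)) atTop atTop := by
    rw [← Nat.cofinite_eq_atTop]
    refine Tendsto.cofinite_of_finite_preimage_singleton fun b => ?_
    by_contra hb
    obtain ⟨c, hc⟩ := exists_nat_gt (K / (ε / 2))
    obtain ⟨t, ht, ht'⟩ := Set.Infinite.exists_subset_card_eq (s := (fun a => n (k a)) ⁻¹' {b}) hb c
    have h2 := (sum_sv_le (μ := μ b) hX t D fun i _ j _ hij => hD hij).trans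
      ((sv_le_norm _).trans (hK b))
    have h3 : ∑ _i ∈ t, ε / 2 ≤ ∑ i ∈ t, sv X (μ b) (D i) := Finset.sum_le_sum fun i hi => by
      have e : n (k i) = b := ht hi
      exact e ▸ (h1 i).le
    rw [Finset.sum_const, ht', nsmul_eq_mul] at h3
    rw [div_lt_iff₀ (half_pos hε)] at hc
    linarith
  choose z hz hz1 hz2 using fun a => exists_lt_sv (h1 a)
  let Z : E := mkE (fun p => if h : ∃ a, p ∈ D a then z h.choose p else 0) 1 fun p => by
    split_ifs with h
    · exact (hz1 _ p).trans ((le_abs_self _).trans ((abs_le_norm _ p).trans (norm_ind_le _)))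
    · simp
  have hZ1 : ‖Z‖ ≤ 1 := norm_le_of fun p => by
    simp only [Z, mkE_apply]
    split_ifs with h
    · exact (hz1 _ p).trans ((le_abs_self _).trans ((abs_le_norm _ p).trans (norm_ind_le _)))
    · simp
  have hZ : Z ∈ X := mem_of_supp hX hC fun p hp => dif_neg fun ⟨a, ha⟩ => hp ha.2
  let U : Set ℕ → Set ℕ := fun S => ⋃ j ∈ S, D j
  have hU : ∀ S T, Disjoint S T → Disjoint (U S) (U T) := fun S T h => by
    simp only [U, disjoint_iUnion_left, disjoint_iUnion_right]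
    exact fun i hi j hj => hD fun e => disjoint_left.1 h hj (e ▸ hi)
  have hU' : ∀ S T, U (S ∪ T) = U S ∪ U T := fun S T => biUnion_union _ _ _
  have hz3 : ∀ a, ind (U {a}) * Z = z a := fun a => by
    ext p
    simp only [U, biUnion_singleton, BoundedContinuousFunction.coe_mul, Pi.mul_apply]
    by_cases hp : p ∈ D a
    · have h : ∃ a, p ∈ D a := ⟨a, hp⟩
      have e : h.choose = a := by
        by_contra e
        exact disjoint_left.1 (hD e) h.choose_spec hp
      simp only [ind_of_mem hp, Z, mkE_apply, dif_pos h, e, one_mul]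
    · have := hz1 a p
      rw [ind_of_notMem hp] at this ⊢
      rw [zero_mul, abs_nonpos_iff.1 this]
  obtain ⟨s, hs, -, h2, h3⟩ := diag (fun a S => sv X (μ (n (k a))) (U S) ≤ ε / 8)
    (fun a => exists_small (fun S => sv X (μ (n (k a))) (U S))
      (fun A B h => sv_mono (biUnion_subset_biUnion_left h))
      (fun A B h => by rw [hU', sv_union hX (hU _ _ h)]) (by positivity))
    (fun a A B h h' => (sv_mono (biUnion_subset_biUnion_left h)).trans h')
    (fun a b => ∀ t ∈ (Finset.range (a + 1)).powerset, |μ (n (k b)) (ind (U t) * Z)| ≤ ε / 8)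
    (fun a => (eventually_all_finset _).2 fun t _ => by
      have := ((hnull _ (hX Z hZ _ (abs_ind_mul_le (U t) Z))).comp hlim).abs
      rw [abs_zero] at this
      exact this.eventually (ge_mem_nhds (by positivity)))
    infinite_univ
  have h4 := ((hnull _ (hX Z hZ _ (abs_ind_mul_le (U (range s)) Z))).comp hlim).comp
    hs.tendsto_atTop
  obtain ⟨i, hi⟩ := ((tendsto_add_atTop_nat 1).eventually
    (h4.eventually (gt_mem_nhds (show (0 : ℝ) < ε / 4 by positivity)))).exists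
  have e : range s = ((((Finset.range (i + 1)).image s : Finset ℕ) : Set ℕ) ∪ {s (i + 1)}) ∪
      s '' Ioi (i + 1) := by
    ext p
    simp only [mem_range, mem_union, Finset.coe_image, Finset.coe_range, mem_image, mem_Iio,
      mem_singleton_iff, mem_Ioi]
    constructor
    · rintro ⟨j, rfl⟩
      rcases lt_trichotomy j (i + 1) with h | rfl | h
      · exact Or.inl (Or.inl ⟨j, h, rfl⟩)
      · exact Or.inl (Or.inr rfl)
      · exact Or.inr ⟨j, h, rfl⟩
    · rintro ((⟨j, -, rfl⟩ | rfl) | ⟨j, -, rfl⟩) <;> exact ⟨_, rfl⟩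
  have d1 : Disjoint (((Finset.range (i + 1)).image s : Finset ℕ) : Set ℕ) {s (i + 1)} := by
    simp only [disjoint_singleton_right, Finset.coe_image, Finset.coe_range, mem_image, mem_Iio]
    rintro ⟨j, h, h'⟩
    exact h.ne (hs.injective h')
  have d2 : Disjoint ((((Finset.range (i + 1)).image s : Finset ℕ) : Set ℕ) ∪ {s (i + 1)})
      (s '' Ioi (i + 1)) := by
    rw [disjoint_right]
    rintro _ ⟨j, hj, rfl⟩
    simp only [mem_union, Finset.coe_image, Finset.coe_range, mem_image, mem_Iio,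
      mem_singleton_iff, mem_Ioi] at hj ⊢
    rintro (⟨l, h, h'⟩ | h)
    · have := hs.injective h'
      omega
    · exact hj.ne' (hs.injective h)
  have h5 := h2 i ((Finset.range (i + 1)).image s) (Finset.mem_powerset.2 fun p hp => by
    obtain ⟨j, hj, rfl⟩ := Finset.mem_image.1 hp
    exact Finset.mem_range.2 (Nat.lt_succ_of_le
      (hs.monotone (Nat.le_of_lt_succ (Finset.mem_range.1 hj)))))
  have h6 := abs_ind_mul_le_sv (μ := μ (n (k (s (i + 1))))) hX hZ (U (s '' Ioi (i + 1)))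
    one_pos hZ1
  simp only [Function.comp] at hi
  rw [e, hU', hU', ind_union (by rw [← hU']; exact hU _ _ d2), ind_union (hU _ _ d1), add_mul,
    add_mul, map_add, map_add, hz3] at hi
  linarith [(abs_le.1 h5).1, (abs_le.1 h6).1, h3 (i + 1), hz2 (s (i + 1))]

theorem tail (hX : Solid X) (hcap : Catch X) {μ : ℕ → E →L[ℝ] ℝ} {K : ℝ} (hK : ∀ n, ‖μ n‖ ≤ K)
    (hnull : ∀ x ∈ X, Tendsto (fun n => μ n x) atTop (𝓝 0)) (A : ℕ → Set ℕ) {ε : ℝ} (hε : 0 < ε)
    (m₀ : ℕ) : ∃ m > m₀, ∀ k > m, ∀ n, sv X (μ n) (A k \ ⋃ j ∈ Finset.Ioc m₀ m, A j) ≤ ε := by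
  by_contra h
  push Not at h
  choose! g hg hg' using h
  let k : ℕ → ℕ := fun i => g^[i] (m₀ + 1)
  have hk : ∀ i, k (i + 1) = g (k i) := fun i => Function.iterate_succ_apply' _ _ _
  have h1 : ∀ i, m₀ < k i := fun i => by
    induction i with
    | zero => exact Nat.lt_succ_self _
    | succ i ih => rw [hk]; exact ih.trans (hg _ ih)
  have h2 : StrictMono k := strictMono_nat_of_lt_succ fun i => by rw [hk]; exact hg _ (h1 i)
  refine exh hX hcap hK hnull (B := fun i => A (k (i + 1)) \ ⋃ j ∈ Finset.Ioc m₀ (k i), A j)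
    (pairwise_disjoint_on _ |>.2 fun i j hij => ?_) hε fun i => ?_
  · refine disjoint_left.2 fun p hp hp' => hp'.2 (mem_biUnion (x := k (i + 1)) ?_ hp.1)
    exact Finset.mem_Ioc.2 ⟨h1 _, h2.monotone hij⟩
  · rw [hk]; exact hg' _ (h1 i)

theorem sum_Ioc_le (a b : ℕ) : ∑ j ∈ Finset.Ioc a b, (1 / 2 : ℝ) ^ j ≤ (1 / 2) ^ a := by
  rcases le_total b a with h | h
  · rw [Finset.Ioc_eq_empty_of_le h, Finset.sum_empty]
    positivity
  · have : ∑ j ∈ Finset.Ioc a b, (1 / 2 : ℝ) ^ j = (1 / 2) ^ a - (1 / 2) ^ b := by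
      induction b, h using Nat.le_induction with
      | base => simp
      | succ b h ih => rw [Finset.sum_Ioc_succ_top h, ih]; ring
    linarith [pow_pos (show (0 : ℝ) < 1 / 2 by norm_num) b]

theorem uac (hX : Solid X) (hcap : Catch X) {μ : ℕ → E →L[ℝ] ℝ} {K : ℝ} (hK : ∀ n, ‖μ n‖ ≤ K)
    (hnull : ∀ x ∈ X, Tendsto (fun n => μ n x) atTop (𝓝 0)) {ε : ℝ} (hε : 0 < ε) :
    ∃ r : ℕ, ∃ δ > 0, ∀ A, (∀ n < r, sv X (μ n) A ≤ δ) → ∀ n, sv X (μ n) A ≤ ε := by
  by_contra h
  push Not at h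
  choose A hA hA' using fun r => h r ((1 / 2) ^ r) (by positivity)
  choose f hf hf' using fun t m₀ => tail hX hcap hK hnull A
    (show 0 < ε / 4 * (1 / 2) ^ t by positivity) m₀
  let m : ℕ → ℕ := fun t => Nat.rec 0 f t
  have hm : ∀ t, m (t + 1) = f t (m t) := fun _ => rfl
  have h1 : StrictMono m := strictMono_nat_of_lt_succ fun t => hf _ _
  let V : ℕ → Set ℕ := fun t => ⋃ j ∈ Finset.Ioc (m t) (m (t + 1)), A j
  let U : ℕ → Set ℕ := fun s => ⋂ t ∈ Finset.range s, V t
  have hU : Antitone U := fun a b hab => biInter_subset_biInter_left (Finset.range_mono hab)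
  have h2 : ∀ s, ∃ n, ε / 2 < sv X (μ n) (U s) := fun s => by
    obtain ⟨n, hn⟩ := hA' (m s + 1)
    refine ⟨n, ?_⟩
    have a1 : A (m s + 1) ⊆ (⋃ t ∈ Finset.range s, A (m s + 1) \ V t) ∪ U s := fun p hp => by
      by_cases h : p ∈ U s
      · exact Or.inr h
      · simp only [U, mem_iInter, not_forall] at h
        obtain ⟨t, ht, h⟩ := h
        exact Or.inl (mem_biUnion ht ⟨hp, h⟩)
    have a2 := (sv_mono (X := X) (μ := μ n) a1).trans (sv_union_le hX _ _)
    have a3 := (sv_biUnion_le (μ := μ n) hX (Finset.range s) fun t => A (m s + 1) \ V t).trans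
      (Finset.sum_le_sum (g := fun t => ε / 4 * (1 / 2) ^ t) fun t ht => hf' t (m t) _
        (Nat.lt_succ_of_le (h1.monotone (Finset.mem_range.1 ht) : m (t + 1) ≤ m s)) n)
    rw [← Finset.mul_sum] at a3
    have a4 := mul_le_mul_of_nonneg_left (sum_geometric_two_le s) (show 0 ≤ ε / 4 by positivity)
    linarith
  have h3 : ∀ n s, n ≤ s → sv X (μ n) (U (s + 1)) ≤ (1 / 2) ^ s := fun n s hn => by
    refine (sv_mono (biInter_subset_of_mem (Finset.self_mem_range_succ s))).trans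
      ((sv_biUnion_le hX _ _).trans ((Finset.sum_le_sum fun j hj => hA j n ?_).trans
        ((sum_Ioc_le _ _).trans ?_)))
    · exact (hn.trans h1.le_apply).trans_lt (Finset.mem_Ioc.1 hj).1
    · exact pow_le_pow_of_le_one (by norm_num) (by norm_num) h1.le_apply
  obtain ⟨a, -, ha⟩ := tail hX hcap hK hnull (fun s => (U s)ᶜ) (show 0 < ε / 8 by positivity) 0
  obtain ⟨n, hn⟩ := h2 a
  obtain ⟨c, hc⟩ := exists_pow_lt_of_lt_one (x := ε / 8) (y := 1 / 2) (by positivity) (by norm_num)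
  have a1 := ha (max (max a n) c + 1) (by omega) n
  have a2 := (h3 n (max (max a n) c) (by omega)).trans
    (pow_le_pow_of_le_one (by norm_num) (by norm_num) (le_max_right _ c))
  have a3 : U a ⊆ ((U (max (max a n) c + 1))ᶜ \ ⋃ j ∈ Finset.Ioc 0 a, (U j)ᶜ) ∪
      U (max (max a n) c + 1) := fun p hp => by
    by_cases h : p ∈ U (max (max a n) c + 1)
    · exact Or.inr h
    · refine Or.inl ⟨h, fun h' => ?_⟩
      obtain ⟨j, hj, h'⟩ := mem_iUnion₂.1 h'
      exact h' (hU (Finset.mem_Ioc.1 hj).2 hp)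
  have a4 := (sv_mono (X := X) (μ := μ n) a3).trans (sv_union_le hX _ _)
  linarith

theorem var_par (hX : Solid X) (μ : E →L[ℝ] ℝ) (x y : E) :
    var X μ ((x - y) * (x - y)) + 4 * var X μ (((1 / 2 : ℝ) • (x + y)) * ((1 / 2 : ℝ) • (x + y))) =
      2 * var X μ (x * x) + 2 * var X μ (y * y) := by
  have h : ∀ (u : E) n, 0 ≤ (u * u) n := fun u n => mul_self_nonneg (u n)
  have h2 : ∀ (u : E) n, 0 ≤ (u * u + u * u) n := fun u n => add_nonneg (h u n) (h u n)
  have e2 : ∀ u : E, var X μ (u * u + u * u) = 2 * var X μ (u * u) := fun u => by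
    rw [var_add hX (h u) (h u)]; ring
  set w := (1 / 2 : ℝ) • (x + y) with hw
  have e : (x - y) * (x - y) + ((w * w + w * w) + (w * w + w * w)) =
      (x * x + x * x) + (y * y + y * y) := by
    ext n
    simp only [hw, BoundedContinuousFunction.coe_add, BoundedContinuousFunction.coe_mul,
      BoundedContinuousFunction.coe_sub, BoundedContinuousFunction.coe_smul, Pi.add_apply,
      Pi.mul_apply, Pi.sub_apply, smul_eq_mul]
    ring
  have := congrArg (var X μ) e
  rw [var_add hX (h _) fun n => add_nonneg (h2 w n) (h2 w n), var_add hX (h2 w) (h2 w),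
    var_add hX (h2 x) (h2 y), e2, e2, e2] at this
  linarith

theorem groth (hX : Solid X) (hc : IsClosed (X : Set E)) (hcap : Catch X) : IsGrothendieck X := by
  intro μ hμ Φ
  have : CompleteSpace X := hc.completeSpace_coe
  obtain ⟨K₀, hK₀⟩ := banach_steinhaus (g := μ) fun x => by
    obtain ⟨C, hC⟩ := (hμ x).norm.bddAbove_range
    exact ⟨C, fun i => hC ⟨i, rfl⟩⟩
  choose ν hν hν' using fun n => exists_extension_norm_eq X (μ n)
  have hK : ∀ n, ‖ν n‖ ≤ |K₀| + 1 := fun n => by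
    rw [hν']; linarith [hK₀ n, le_abs_self K₀]
  set K := |K₀| + 1 with hKd
  have hKp : 0 < K := by positivity
  have hnull : ∀ x ∈ X, Tendsto (fun n => ν n x) atTop (𝓝 0) := fun x hx => by
    simpa only [← hν] using hμ ⟨x, hx⟩
  set c := ‖Φ‖ + 1 with hcd
  have hcp : 0 < c := by positivity
  refine Metric.tendsto_nhds.2 fun ε hε => ?_
  obtain ⟨r, δ, hδ, h1⟩ := uac hX hcap hK hnull (show 0 < ε / (8 * c) by positivity)
  set γ := ε / (4 * K) with hγ
  have hγp : 0 < γ := by positivity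
  let q : X → ℝ := fun x => ∑ n ∈ Finset.range r, var X (ν n) (x.1 * x.1)
  have h2 : ∀ (u : E) n, 0 ≤ (u * u) n := fun u n => mul_self_nonneg (u n)
  obtain ⟨x, hx, h3⟩ := exists_close q (fun x => Finset.sum_nonneg fun n _ => var_nonneg (h2 _))
    (fun x y => by
      simp only [q, Finset.mul_sum, ← Finset.sum_add_distrib]
      exact Finset.sum_congr rfl fun n _ => var_par hX (ν n) x.1 y.1)
    (fun t => {x | ‖x‖ ≤ c ∧ ∀ n < t, |μ n x - Φ (μ n)| < 1 / (t + 1)})
    (fun a b hab x hx => ⟨hx.1, fun n hn => (hx.2 n (hn.trans_le hab)).trans_le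
      (Nat.one_div_le_one_div hab)⟩)
    (fun t => goldstine Φ hcp (by linarith) μ t Nat.one_div_pos_of_nat)
    (fun t x hx y hy => ⟨by
      change ‖(1 / 2 : ℝ) • (x.1 + y.1)‖ ≤ c
      rw [norm_smul, Real.norm_of_nonneg (by norm_num)]
      have a1 : ‖x.1‖ ≤ c := hx.1
      have a2 : ‖y.1‖ ≤ c := hy.1
      linarith [norm_add_le x.1 y.1], fun n hn => by
      have a1 := abs_lt.1 (hx.2 n hn)
      have a2 := abs_lt.1 (hy.2 n hn)
      rw [map_smul, map_add, smul_eq_mul, abs_lt]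
      constructor <;> linarith⟩)
    (M := ∑ _n ∈ Finset.range r, K * (c * c))
    (fun x hx => Finset.sum_le_sum fun n _ => (var_le_norm (h2 _)).trans
      (mul_le_mul (hK n) ((norm_mul_le _ _).trans (mul_le_mul hx.1 hx.1 (norm_nonneg _) hcp.le))
        (norm_nonneg _) hKp.le))
    (show 0 < δ * (γ * γ) by positivity)
  obtain ⟨t₀, ht₀⟩ := exists_nat_one_div_lt (show 0 < ε / 4 by positivity)
  filter_upwards [(Metric.tendsto_nhds.1 (hμ x)) (ε / 4) (by positivity)] with n hn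
  obtain ⟨y, hy, h4⟩ := h3 (max (n + 1) t₀)
  have a1 := (hy.2 n (by omega)).trans_le (Nat.one_div_le_one_div (le_max_right _ t₀))
  have a2 : ‖(x - y).1‖ ≤ 2 * c := by
    change ‖x - y‖ ≤ _
    linarith [norm_sub_le x y, hx.1, hy.1]
  have a3 := h1 {p | γ ≤ |(x - y).1 p|} (fun l hl => by
    have b1 : var X (ν l) ((x - y).1 * (x - y).1) ≤ δ * (γ * γ) :=
      (Finset.single_le_sum (f := fun n => var X (ν n) ((x - y).1 * (x - y).1))
        (fun n _ => var_nonneg (h2 _)) (Finset.mem_range.2 hl)).trans h4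
    have b2 : sv X (ν l) {p | γ ≤ |(x - y).1 p|} ≤
        var X (ν l) ((γ * γ)⁻¹ • ((x - y).1 * (x - y).1)) := var_mono (ind_nonneg _) fun p => by
      by_cases hp : p ∈ {p | γ ≤ |(x - y).1 p|}
      · rw [ind_of_mem hp]
        change 1 ≤ (γ * γ)⁻¹ * ((x - y).1 p * (x - y).1 p)
        rw [le_inv_mul_iff₀ (by positivity), mul_one, ← abs_mul_abs_self ((x - y).1 p)]
        exact mul_self_le_mul_self hγp.le hp
      · rw [ind_of_notMem hp]
        exact mul_nonneg (by positivity) (h2 _ p)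
    refine b2.trans ((var_smul_le (h2 _) (by positivity)).trans ?_)
    rw [inv_mul_le_iff₀ (by positivity)]
    linarith) n
  have a4 := abs_ind_mul_le_sv (μ := ν n) hX (x - y).2 {p | γ ≤ |(x - y).1 p|} (by positivity) a2
  have a5 : |ν n (ind {p | γ ≤ |(x - y).1 p|}ᶜ * (x - y).1)| ≤ K * γ :=
    ((ν n).le_opNorm _).trans (mul_le_mul (hK n) (norm_le_of fun p => by
      by_cases hp : p ∈ {p | γ ≤ |(x - y).1 p|}ᶜ
      · rw [BoundedContinuousFunction.mul_apply, ind_of_mem hp, one_mul]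
        exact (not_le.1 (show ¬ γ ≤ |(x - y).1 p| from hp)).le
      · rw [BoundedContinuousFunction.mul_apply, ind_of_notMem hp, zero_mul, abs_zero]
        exact hγp.le) (norm_nonneg _) hKp.le)
  have a6 := congrArg (ν n) (ind_mul_add {p | γ ≤ |(x - y).1 p|} (x - y).1)
  rw [map_add, hν, map_sub] at a6
  have a7 : 2 * c * (ε / (8 * c)) = ε / 4 := by field_simp; ring
  have a8 : K * γ = ε / 4 := by rw [hγ]; field_simp
  have a9 := mul_le_mul_of_nonneg_left a3 (show 0 ≤ 2 * c by positivity)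
  rw [Real.dist_eq, sub_zero, abs_lt] at hn ⊢
  constructor <;> linarith [abs_lt.1 a1, abs_le.1 a4, abs_le.1 a5]

end Pool.Agent.P.MP_7e1ced_an
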