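import Pool.Agent.P.MP_7e1ced_an.Blocks

set_option autoImplicit false

/-! The spaces are pairwise non-isomorphic; counting. -/

namespace Pool.Agent.P.MP_7e1ced_an

open Set Filter Topology

theorem exists_ext_aux {F G : Type} [NormedAddCommGroup F] [NormedSpace ℝ F]
    [NormedAddCommGroup G] [NormedSpace ℝ G] (X : Submodule ℝ F) (Y : Submodule ℝ G)
    (T : X →L[ℝ] Y) : ∃ K, 0 ≤ K ∧ ∀ φ : G →L[ℝ] ℝ, (∀ y, |φ y| ≤ ‖y‖) →
      ∃ τ : F →L[ℝ] ℝ, (∀ x : X, τ x = φ (T x).1) ∧ ∀ x, |τ x| ≤ K * ‖x‖ := by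
  refine ⟨‖T‖, T.opNorm_nonneg, fun φ hφ => ?_⟩
  obtain ⟨τ, h1, h2⟩ := exists_extension_norm_eq X (φ.comp (Y.subtypeL.comp T))
  exact ⟨τ, h1, fun x => (τ.le_opNorm x).trans (mul_le_mul_of_nonneg_right (h2.trans_le
    (ContinuousLinearMap.opNorm_le_bound _ T.opNorm_nonneg fun y =>
      (hφ _).trans (T.le_opNorm y))) (norm_nonneg _))⟩

theorem exists_ext {X Y : Submodule ℝ E} (T : X →L[ℝ] Y) :
    ∃ (R : E →L[ℝ] E) (K : ℝ), 0 ≤ K ∧ (∀ x : X, R x = (T x).1) ∧ ∀ x, ‖R x‖ ≤ K * ‖x‖ := by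
  obtain ⟨K, hK, h⟩ := exists_ext_aux X Y T
  choose τ h1 h3 using fun m => h (BoundedContinuousFunction.evalCLM ℝ m) fun y => abs_le_norm y m
  refine ⟨LinearMap.mkContinuous
    { toFun := fun x => mkE (fun m => τ m x) _ fun m => h3 m x
      map_add' := fun x y => by ext m; simp
      map_smul' := fun c x => by ext m; simp } K fun x => norm_le_of fun m => h3 m x, K,
    hK, fun x => ?_, fun x => norm_le_of fun m => h3 m x⟩
  ext m
  exact h1 m x

/-- rows of an operator -/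
noncomputable def row (R : E →L[ℝ] E) (m : ℕ) : E →L[ℝ] ℝ :=
  (BoundedContinuousFunction.evalCLM ℝ m).comp R

theorem row_apply (R : E →L[ℝ] E) (m : ℕ) (x : E) : row R m x = R x m := rfl

theorem norm_row {R : E →L[ℝ] E} {K : ℝ} (hK : 0 < K) (h : ∀ x, ‖R x‖ ≤ K * ‖x‖) (m : ℕ) :
    ‖row R m‖ ≤ K :=
  ContinuousLinearMap.opNorm_le_bound _ hK.le fun x => (abs_le_norm (R x) m).trans (h x)

theorem Sys.no_iso (S : Sys) {L L' : Set ℕ} (hL : L.Infinite) (hL' : L'.Infinite)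
    (hd : (L \ L').Infinite) (R Q : E →L[ℝ] E) {K : ℝ} (hK : 0 < K)
    (hR : ∀ x, ‖R x‖ ≤ K * ‖x‖) (hQ : ∀ x, ‖Q x‖ ≤ K * ‖x‖)
    (hRI : ∀ x ∈ (S.ideal L hL).c0, R x ∈ (S.ideal L' hL').c0)
    (hQJ : ∀ y ∈ (S.ideal L' hL').c0, Q y ∈ (S.ideal L hL).c0)
    (hQR : ∀ x ∈ (S.ideal L hL).c0, Q (R x) = x) : False := by
  classical
  obtain ⟨C₀, hC₀, h1⟩ := S.capture hL' (row Q) S.blk fun j =>
    ⟨S.early j, fun k hk => S.mem_early.2 hk, S.card_early j⟩
  let C := C₀ ∪ {n | S.blk n ∉ L'}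
  have hC : C ∈ (S.ideal L' hL').sets := (S.ideal L' hL').union _ hC₀ _ fun r =>
    Eventually.of_forall fun j hj => ⟨∅, Finset.empty_subset _, by simp,
      fun n hn e => absurd (e ▸ hj) hn⟩
  let G : E →L[ℝ] E := Q.comp ((ContinuousLinearMap.mul ℝ E (ind C)).comp R)
  have hG : ∀ x, G x ∈ (S.ideal L hL).c0 := fun x =>
    hQJ _ (ind_mul_mem (S.ideal L' hL').solid ((S.ideal L' hL').ind_mem hC) _)
  choose i hi hi' using fun m => S.exists_basic (S.ideal L hL).solid (row R m)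
  let D : ℕ → Set ℕ := fun k => {n | S.blk n = k ∧ ∀ m ∈ S.early k, i m k ∈ S.R n}
  have est : ∀ k ∉ L', ∀ p ∈ D k, 1 - (K * K + K * (K + 1)) / (k + 1) ≤ G (ind (D k)) p := by
    intro k hk p hp
    have hx : ind (D k) ∈ (S.ideal L hL).c0 := (S.ideal L hL).ind_mem ((S.ideal L hL).finite _
      ((S.X k).finite_toSet.subset fun n hn => (S.mem_X _ _).2 hn.1))
    have e : Cᶜ = (Cᶜ ∩ {n | S.blk n < k}) ∪ (Cᶜ ∩ {n | k < S.blk n}) := by
      rw [← inter_union_distrib_left]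
      exact (inter_eq_left.2 fun n (hn : n ∉ C) => lt_or_gt_of_ne fun e : S.blk n = k => hn (Or.inr (e ▸ hk :
        S.blk n ∉ L'))).symm
    have a1 : Q (ind C * R (ind (D k)) + ind Cᶜ * R (ind (D k))) p = 1 := by
      rw [ind_mul_add, hQR _ hx, ind_of_mem hp]
    rw [e, ind_union (A := Cᶜ ∩ {n | S.blk n < k}) (B := Cᶜ ∩ {n | k < S.blk n})
      (disjoint_left.2 fun n h h' => lt_asymm (a := S.blk n) (b := k) h.2 h'.2), add_mul, map_add, map_add] at a1
    have a2 : ‖ind (Cᶜ ∩ {n | S.blk n < k}) * R (ind (D k))‖ ≤ K / (k + 1) := norm_le_of fun n => by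
      by_cases hn : n ∈ Cᶜ ∩ {n | S.blk n < k}
      · rw [BoundedContinuousFunction.mul_apply, ind_of_mem hn, one_mul, ← row_apply]
        refine (abs_le_sv hx (fun n hn => ind_of_notMem hn) one_pos (norm_ind_le _)).trans ?_
        rw [one_mul]
        refine (sv_mono fun q hq => ?_).trans ((hi' n k).trans
          (div_le_div_of_nonneg_right ((sv_le_norm _).trans (norm_row hK hR n)) (by positivity)))
        exact ⟨hq.1, hq.2 n (S.mem_early.2 hn.2)⟩
      · rw [BoundedContinuousFunction.mul_apply, ind_of_notMem hn, zero_mul, abs_zero]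
        positivity
    have a3 := (abs_le_norm _ p).trans ((hQ _).trans (mul_le_mul_of_nonneg_left a2 hK.le))
    have a4 := abs_ind_mul_le_sv (μ := row Q p) (S.ideal L' hL').solid (hRI _ hx)
      (Cᶜ ∩ {n | k < S.blk n}) hK ((hR _).trans (mul_le_of_le_one_right hK.le (norm_ind_le _)))
    have a5 : sv (S.ideal L' hL').c0 (row Q p) (Cᶜ ∩ {n | k < S.blk n}) ≤ (K + 1) / (k + 1) := by
      refine (sv_mono fun n hn => ?_).trans ((h1 p).trans ?_)
      · exact ⟨hp.1.trans_lt hn.2, fun h => hn.1 (Or.inl h)⟩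
      · rw [hp.1]
        exact div_le_div_of_nonneg_right (by linarith [norm_row hK hQ p]) (by positivity)
    have a6 := mul_le_mul_of_nonneg_left a5 hK.le
    simp only [BoundedContinuousFunction.add_apply] at a1
    rw [row_apply] at a4
    change _ ≤ Q (ind C * R (ind (D k))) p
    rw [add_div, mul_div_assoc, mul_div_assoc]
    linarith [abs_le.1 a3, abs_le.1 a4]
  obtain ⟨c, hc⟩ := exists_nat_gt ((K * K + K * (K + 1)) * 8)
  obtain ⟨s, hs, h2, h3, h4⟩ := diag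
    (fun k T => ∑ p ∈ S.X k, sv ⊤ (row G p) (S.blk ⁻¹' T) ≤ 1 / 8)
    (fun k => exists_small (fun T => ∑ p ∈ S.X k, sv ⊤ (row G p) (S.blk ⁻¹' T))
      (fun A B h => Finset.sum_le_sum fun p _ => sv_mono (preimage_mono h))
      (fun A B h => by
        rw [← Finset.sum_add_distrib]
        exact Finset.sum_le_sum fun p _ => by
          rw [preimage_union, sv_union solid_top (h.preimage _)]) (by norm_num))
    (fun k A B h h' => (Finset.sum_le_sum fun p _ => sv_mono (preimage_mono h)).trans h')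
    (fun a b => (b ∈ L → S.Small b 4
      (⋃ t ∈ (S.early (a + 1)).powerset, {p | 1 / 8 ≤ |G (ind t) p|})) ∧ c ≤ b ∧ 1 ≤ b)
    (fun a => ((S.ideal L hL).biUnion_mem _ (fun t => hG _ _ (by norm_num)) 4).and
      ((eventually_ge_atTop c).and (eventually_ge_atTop 1))) hd
  let B := ⋃ j, D (s j)
  obtain ⟨j, hj⟩ := ((tendsto_add_atTop_nat 1).eventually
    (hs.tendsto_atTop.eventually (hG (ind B) (1 / 2) (by norm_num) 4))).exists
  obtain ⟨h5, h6, h7⟩ := h3 j
  obtain ⟨p, hp, h8⟩ := (((Sys.small_basic (S.card_early (s (j + 1))) fun m => hi m _).mono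
    (r' := 2 * 1) (by omega) fun _ h _ => h).union
      (Sys.Small.union (r := 2) (h5 (h2 _).1) (hj (h2 _).1))).exists_notMem
  simp only [mem_union, not_or] at h8
  have hpD : p ∈ D (s (j + 1)) := ⟨hp, fun m hm => not_not.1 fun h => h8.1 ⟨m, hm, h⟩⟩
  let t := (S.early (s j + 1)).filter (· ∈ B)
  have e : B = ((t : Set ℕ) ∪ D (s (j + 1))) ∪ (B ∩ S.blk ⁻¹' (s '' Ioi (j + 1))) := by
    ext n
    constructor
    · intro hn
      obtain ⟨l, hl⟩ := mem_iUnion.1 hn
      rcases lt_trichotomy l (j + 1) with h | rfl | h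
      · exact Or.inl (Or.inl (Finset.mem_filter.2 ⟨S.mem_early.2 (Nat.lt_succ_of_le
          (hl.1.trans_le (hs.monotone (Nat.le_of_lt_succ h)))), hn⟩))
      · exact Or.inl (Or.inr hl)
      · exact Or.inr ⟨hn, l, h, hl.1.symm⟩
    · rintro ((h | h) | h)
      exacts [(Finset.mem_filter.1 h).2, mem_iUnion.2 ⟨_, h⟩, h.1]
  have b0 : ∀ n ∈ t, S.blk n < s (j + 1) := fun n hn =>
    (Nat.le_of_lt_succ (S.mem_early.1 (Finset.mem_filter.1 hn).1)).trans_lt (hs j.lt_succ_self)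
  have d1 : Disjoint (t : Set ℕ) (D (s (j + 1))) :=
    disjoint_left.2 fun n h h' => (b0 n h).ne h'.1
  have d2 : Disjoint ((t : Set ℕ) ∪ D (s (j + 1))) (B ∩ S.blk ⁻¹' (s '' Ioi (j + 1))) := by
    rw [disjoint_left]
    rintro n h ⟨-, l, hl, e⟩
    have := hs hl
    rcases h with h | h
    · linarith [b0 n h]
    · linarith [h.1]
  have b1 : |G (ind t) p| < 1 / 8 := not_le.1 fun h =>
    h8.2.1 (mem_biUnion (x := t) (Finset.mem_powerset.2 (Finset.filter_subset _ _)) h)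
  have b2 : |G (ind B) p| < 1 / 2 := not_le.1 h8.2.2
  have b3 := abs_le_sv (X := ⊤) (μ := row G p) (x := ind (B ∩ S.blk ⁻¹' (s '' Ioi (j + 1))))
    trivial (A := S.blk ⁻¹' (s '' Ioi (j + 1))) (fun n hn => ind_of_notMem fun h => hn h.2)
    one_pos (norm_ind_le _)
  have b4 := (Finset.single_le_sum
    (f := fun p => sv ⊤ (row G p) (S.blk ⁻¹' (s '' Ioi (j + 1)))) (fun _ _ => sv_nonneg _)
    ((S.mem_X _ _).2 hp)).trans (h4 (j + 1))
  have b5 := est _ (h2 (j + 1)).2 p hpD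
  have b6 : (K * K + K * (K + 1)) / ((s (j + 1) : ℝ) + 1) ≤ 1 / 8 := by
    rw [div_le_iff₀ (by positivity)]
    have : (c : ℝ) ≤ s (j + 1) := Nat.cast_le.2 h6
    linarith
  have b7 : G (ind B) p = G (ind t) p + G (ind (D (s (j + 1)))) p +
      G (ind (B ∩ S.blk ⁻¹' (s '' Ioi (j + 1)))) p := by
    conv_lhs => rw [e, ind_union d2, ind_union d1, map_add, map_add]
    rfl
  rw [row_apply] at b3
  linarith [abs_lt.1 b1, abs_lt.1 b2, abs_le.1 b3]

theorem Sys.isEmpty (S : Sys) {L L' : Set ℕ} (hL : L.Infinite) (hL' : L'.Infinite)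
    (hd : (L \ L').Infinite) (T : (S.ideal L hL).c0 ≃L[ℝ] (S.ideal L' hL').c0) : False := by
  obtain ⟨R, K, a1, h1, h2⟩ := exists_ext T.toContinuousLinearMap
  obtain ⟨Q, K', a2, h3, h4⟩ := exists_ext T.symm.toContinuousLinearMap
  refine S.no_iso hL hL' hd R Q (K := K + K' + 1) (by linarith)
    (fun x => (h2 x).trans (mul_le_mul_of_nonneg_right (by linarith) (norm_nonneg _)))
    (fun x => (h4 x).trans (mul_le_mul_of_nonneg_right (by linarith) (norm_nonneg _)))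
    (fun x hx => (h1 ⟨x, hx⟩).symm ▸ (T ⟨x, hx⟩).2) (fun x hx => (h3 ⟨x, hx⟩).symm ▸ (T.symm ⟨x, hx⟩).2)
    fun x hx => ?_
  rw [h1 ⟨x, hx⟩, h3]
  simp

theorem exists_chain : ∃ L : ℝ → Set ℕ, ∀ r r', r' < r → (L r \ L r').Infinite := by
  refine ⟨fun r => {j | ((Denumerable.ofNat ℚ j : ℚ) : ℝ) < r}, fun r r' h => ?_⟩
  obtain ⟨a, h1, h2⟩ := exists_rat_btwn h
  obtain ⟨b, h3, h4⟩ := exists_rat_btwn h2
  refine ((Ioo_infinite (Rat.cast_lt.1 h3 : a < b)).preimage (f := Denumerable.ofNat ℚ)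
    fun x _ => (Denumerable.eqv ℚ).symm.surjective x).mono fun j hj => ⟨?_, fun h' => ?_⟩
  · exact (Rat.cast_lt.2 hj.2).trans h4
  · exact lt_asymm (h1.trans (Rat.cast_lt.2 hj.1)) h'

theorem card_analytic :
    Cardinal.mk {s : Set (ℕ → Bool) // MeasureTheory.AnalyticSet s} ≤ Cardinal.continuum := by
  have h1 : Cardinal.mk C(ℕ → ℕ, ℕ → Bool) ≤ Cardinal.continuum := by
    refine (Cardinal.mk_le_of_injective
      (f := fun f : C(ℕ → ℕ, ℕ → Bool) => f ∘ TopologicalSpace.denseSeq (ℕ → ℕ))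
      fun f g h => DFunLike.coe_injective
        ((TopologicalSpace.denseRange_denseSeq _).equalizer f.continuous g.continuous h)).trans ?_
    simp
  refine (Cardinal.mk_le_of_surjective (α := Option C(ℕ → ℕ, ℕ → Bool))
    (f := fun o => o.elim ⟨∅, MeasureTheory.analyticSet_empty⟩ fun f =>
      ⟨range f, MeasureTheory.analyticSet_range_of_polishSpace f.continuous⟩) ?_).trans ?_
  · rintro ⟨s, hs⟩
    have hs' := hs
    rw [MeasureTheory.AnalyticSet] at hs'
    rcases hs' with rfl | ⟨f, hf, rfl⟩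
    · exact ⟨none, rfl⟩
    · exact ⟨some ⟨f, hf⟩, rfl⟩
  · rw [Cardinal.mk_option]
    exact (add_le_add h1 (Cardinal.one_le_aleph0.trans Cardinal.aleph0_le_continuum)).trans
      Cardinal.continuum_add_self.le

theorem code_injective : Function.Injective IdealOn.code := by
  classical
  rintro ⟨I, _, _, _, _⟩ ⟨J, _, _, _, _⟩ h
  have : I = J := by
    ext A
    simpa [IdealOn.code] using Set.ext_iff.1 h fun n => decide (n ∈ A)
  subst this
  rfl

theorem numClasses_eq (P : Set (ℕ → Bool) → Prop) (h1 : ∀ s, P s → MeasureTheory.AnalyticSet s)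
    (h2 : ∀ s, MeasurableSet s → P s) : numClasses P = Cardinal.continuum := by
  apply le_antisymm
  · refine Cardinal.mk_quot_le.trans (le_trans ?_ card_analytic)
    exact Cardinal.mk_le_of_injective (f := fun I => ⟨I.1.code, h1 _ I.2.1⟩)
      fun I J h => Subtype.ext (code_injective (congrArg Subtype.val h))
  · obtain ⟨S⟩ := exists_sys
    obtain ⟨L, hL⟩ := exists_chain
    have hi : ∀ r, (L r).Infinite := fun r => (hL r (r - 1) (by linarith)).mono sdiff_subset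
    rw [← Cardinal.mk_real]
    refine Cardinal.mk_le_of_injective (f := fun r => Quot.mk _ ⟨S.ideal (L r) (hi r),
      h2 _ (S.measurableSet_code _), S.isGrothendieck _⟩) fun r r' h => ?_
    obtain ⟨T⟩ := (Equivalence.eqvGen_iff ⟨fun _ => ⟨.refl _ _⟩, fun ⟨T⟩ => ⟨T.symm⟩,
      fun ⟨T⟩ ⟨T'⟩ => ⟨T.trans T'⟩⟩).1 (Quot.eq.1 h)
    rcases lt_trichotomy r r' with e | e | e
    · exact (S.isEmpty (hi r') (hi r) (hL _ _ e) T.symm).elim
    · exact e
    · exact (S.isEmpty (hi r) (hi r') (hL _ _ e) T).elim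

theorem main : numClasses MeasureTheory.AnalyticSet = Cardinal.continuum ∧
    numClasses (fun s => @MeasurableSet _ (borel (ℕ → Bool)) s) = Cardinal.continuum := by
  rw [← BorelSpace.measurable_eq (α := ℕ → Bool)]
  have : PolishSpace (ℕ → Bool) := PolishSpace.mk
  exact ⟨numClasses_eq _ (fun _ h => h) fun _ h => h.analyticSet,
    numClasses_eq _ (fun _ h => h.analyticSet) fun _ h => h⟩

end Pool.Agent.P.MP_7e1ced_an
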